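import Pool.Agent.Lib.MP_a4482b_co.Bridge2

set_option autoImplicit false

/-!
# Balanced (8,5)-colourings of signed subcubic graphs (MP_a4482b_co, Q1)

A finite signed subcubic graph has a balanced `(8,5)`-colouring if and only if none of its
connected components is `(K₄,-)` (up to switching) and it does not contain `K̂₄•`.  In particular
the answer to Q1 is yes for connected graphs.

The proof is by induction on the number of vertices. A minimal counterexample has no cut with at
most one edge, is cubic (a vertex of degree two is suppressed), has no diamond, no cut with two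
edges and no triangle (special reductions). In the remaining triangle-free case a vertex `v` is
deleted and its three neighbours are suppressed; the balanced sets of the smaller graph extend so
that each of the four vertices `v, a, b, d` is in five of the eight sets.
-/

namespace Pool.Agent.Results.MP_a4482b_co.Balanced85

open MPa4482b

theorem result {V : Type*} [Finite V] (G : SimpleGraph V)
    (hG : ∀ v, (G.neighborSet v).ncard ≤ 3) (σ : Signature G) :
    (HasBalancedColouring σ 8 5 ↔
      (∀ C : G.ConnectedComponent, ¬ IsNegK4 (restrict σ C.supp)) ∧ ¬ ContainsHat σ) ∧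
    (G.Connected → ¬ IsNegK4 σ → ¬ ContainsHat σ → HasBalancedColouring σ 8 5) := by
  classical
  cases nonempty_fintype V
  have hpos : (∀ a b c d, ¬ (toSG σ).K4At a b c d) → ¬ ContainsHat σ →
      HasBalancedColouring σ 8 5 := by
    intro h1 h2
    refine of_col (SG.main_col _ _ _ rfl ⟨deg_le σ hG, ?_, ?_⟩)
    · intro a _ b _ c _ d _ hK
      exact h1 a b c d hK
    · intro a _ b _ c _ d _ x _ hK
      exact h2 (hat_of hK)
  refine ⟨⟨fun h => ⟨?_, ?_⟩, fun h => hpos ?_ h.2⟩, fun hconn h1 h2 => hpos ?_ h2⟩
  · intro C hC
    obtain ⟨a, b, c, d, pa, pb, pc, pd, k1, k2, k3, k4, k5, k6⟩ := k4At_of hC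
    exact no_K4 (col_of h) ⟨pa, pb, pc, pd, toSG_restrict.mp k1, toSG_restrict.mp k2,
      toSG_restrict.mp k3, toSG_restrict.mp k4, toSG_restrict.mp k5, toSG_restrict.mp k6⟩
      (Finset.mem_univ _) (Finset.mem_univ _) (Finset.mem_univ _) (Finset.mem_univ _)
  · intro hhat
    obtain ⟨a, b, c, d, x, hK⟩ := k4dAt_of hhat
    exact no_K4d (col_of h) hK (Finset.mem_univ _) (Finset.mem_univ _) (Finset.mem_univ _)
      (Finset.mem_univ _) (Finset.mem_univ _)
  · intro a b c d hK
    exact h.1 _ (component_of hG hK)
  · intro a b c d hK
    apply h1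
    have hcl := hK.closed (deg_le σ hG) (Finset.mem_univ _) (Finset.mem_univ _)
      (Finset.mem_univ _) (Finset.mem_univ _)
    have hcl' : ∀ q ∈ (({a, b, c, d} : Finset V) : Set V), ∀ w, G.Adj q w →
        w ∈ (({a, b, c, d} : Finset V) : Set V) := by
      intro q hq w hadj
      exact hcl q hq w (Finset.mem_univ _) (toSG_ne_none.mpr hadj)
    refine isNegK4_of hK ?_
    intro w
    obtain ⟨p⟩ := hconn.preconnected a w
    exact walk_closed hcl' p (by simp)

end Pool.Agent.Results.MP_a4482b_co.Balanced85
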